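import Mathlib

/-!
Minimal subshifts as compact subsets of `ℕ^ℤ`, topological conjugacy, topological entropy zero,
amenability of a relation (Reiter functions); definitions.
-/

namespace Pool.Agent.H27.ZEA

open TopologicalSpace Filter Topology

section
variable {Z : Type} [TopologicalSpace Z] (s : Z → Z)

/-- `X` is invariant under `s`, and the orbit of every point of `X` is dense in `X`. -/
def Minimal (X : Set Z) : Prop :=
  s '' X = X ∧ ∀ x ∈ X, X ⊆ closure {y | ∃ n : ℕ, s^[n] x = y ∨ s^[n] y = x}

/-- There is a homeomorphism `f` of `X` onto `Y` which commutes with `s`. -/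
def Conj (X Y : Set Z) : Prop :=
  ∃ f g : Z → Z, ContinuousOn f X ∧ ContinuousOn g Y ∧
    (∀ x ∈ X, f x ∈ Y ∧ g (f x) = x ∧ f (s x) = s (f x)) ∧ ∀ y ∈ Y, g y ∈ X ∧ f (g y) = y

end

/-- The shift on `ℕ^ℤ`. -/
def shift (x : ℤ → ℕ) (i : ℤ) : ℕ := x (i + 1)

/-- The words of length `n` of `X`. -/
def words (X : Set (ℤ → ℕ)) (n : ℕ) : Set (Fin n → ℕ) := {w | ∃ x ∈ X, ∀ i : Fin n, w i = x i}

/-- The topological entropy of `X` is zero: `(log (number of words of length n)) / n → 0`. -/
def ZeroEntropy (X : Set (ℤ → ℕ)) : Prop :=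
  Tendsto (fun n : ℕ => Real.log ((words X n).ncard : ℝ) / n) atTop (𝓝 0)

/-- The space of the nonempty compact subsets of `ℕ^ℤ`. -/
def Compacts : Type := NonemptyCompacts (ℤ → ℕ)

/-- The Borel sets of the Vietoris topology. -/
instance borelSets : MeasurableSpace Compacts := borel (NonemptyCompacts (ℤ → ℕ))

/-- The points of a nonempty compact set. -/
def pts (X : Compacts) : Set (ℤ → ℕ) := (show NonemptyCompacts (ℤ → ℕ) from X)

/-- The space of the minimal subshifts of entropy zero. -/
def Z0 : Type := {X : Compacts // Minimal shift (pts X) ∧ ZeroEntropy (pts X)}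

/-- The minimal subshift as a set. -/
def sub (X : Z0) : Set (ℤ → ℕ) := pts X.1

/-- The Borel sets of this space. -/
instance borelZ0 : MeasurableSpace Z0 := borelSets.comap Subtype.val

/-- Amenability of a relation `E` on a measurable space `M` (Borel Reiter functions): there are
measurable functions `L n` on `M × M` such that every `L n x` is a probability distribution on
the class of `x`, and `‖L n x - L n x'‖₁ → 0` whenever `E x x'`. -/
def Amenable {M : Type} [MeasurableSpace M] (E : M → M → Prop) : Prop :=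
  ∃ L : ℕ → M → M → ℝ,
    (∀ n, Measurable fun p : M × M => L n p.1 p.2) ∧
    (∀ n x y, 0 ≤ L n x y ∧ (¬ E x y → L n x y = 0)) ∧
    (∀ n x, HasSum (L n x) 1) ∧
    ∀ x x', E x x' → Tendsto (fun n => ∑' y, |L n x y - L n x' y|) atTop (𝓝 0)

end Pool.Agent.H27.ZEA
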